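import Mathlib
import Pool.Agent.H485R3.GTC.Conv

/-!
# The generalized Tate conjecture over finite fields: when is the Galois coniveau divisorial?

The definitions `IsDivisorMultiple`, `galoisConiveau`, `ConiveauIsDivisorial`, `AllTypesOccur` are
those of `Pool/Agent/H485R3/GTC/Defs.lean`.
-/

set_option autoImplicit false

namespace Pool.Agent.Results.MP_8abef2_ag.DivisorialConiveau

open NumberField Pool.Agent.H485R3.GTC

/-- `π` is an algebraic integer all of whose complex absolute values are `p ^ (a / 2)`. -/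
def IsWeilNumber {K : Type*} [Field K] (p a : ℕ) (π : K) : Prop :=
  IsIntegral ℤ π ∧ ∀ φ : K →+* ℂ, ‖φ π‖ ^ 2 = (p : ℝ) ^ a

theorem result {I : Type} [Finite I] {K : I → Type} [∀ i, Field (K i)] [∀ i, NumberField (K i)]
    [∀ i, IsCMField (K i)] (p a : ℕ) [Fact p.Prime] (ha : 0 < a) (π : ∀ i, K i)
    (hπ : ∀ i, IsWeilNumber p a (π i)) (hK : ∀ i, Algebra.adjoin ℚ {π i} = ⊤) :
    ConiveauIsDivisorial π (p ^ a) ↔ AllTypesOccur p π :=
  ⟨converse p a π hπ hK, direct p a ha π hπ⟩

end Pool.Agent.Results.MP_8abef2_ag.DivisorialConiveau
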