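import Mathlib
import Pool.Agent.H204R3.GT.Defs
import Pool.Agent.H204R3.GT.Degree

/-!
# The generalized Tate conjecture for the powers of ordinary abelian varieties over finite fields

Let `A` be an ordinary abelian variety of dimension `g` over a finite field with `q = p ^ a`
elements.  The eigenvalues of the Frobenius endomorphism are the conjugates of Weil numbers `π i` in
CM fields `F i`; let `2 g = ∑ [F i : ℚ]` (this is so if the simple factors of `A` are absolutely
simple and pairwise not isogenous over all finite extensions; powers and products with repetitions
are treated below).  Let `P` be the product of those `g` eigenvalues which are units at a fixed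
`p`-adic place.  Its conjugates are products of elements of CM types, so that `P` has degree at most
`2 ^ g` over `ℚ`.  Suppose that it has degree `2 ^ g`.  This is the generic case, and it always holds
if the embeddings of the fields `F i` into the complex numbers are individually flipped: for every
embedding `x` some automorphism of the complex numbers conjugates `x` and fixes all embeddings of all
these fields which are different from `x` and its complex conjugate.  (For one field `F` of degree
`2 g` this means that the Galois group of the normal closure contains the group `(Z/2)^g` of all sign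
changes; there is no condition on the maximal real subfield.)

Then the generalized Tate conjecture holds for all powers of `A` (and all products of its factors):
let `U` be a subspace of `H^1(A)^{⊗ n}` (or of `H^n(A)`, `H^n(A^N)`), stable under the Frobenius
endomorphism, such that `U(ν)` is effective, that is, all eigenvalues of the Frobenius endomorphism on
`U` are divisible by `q ^ ν`.  Then the elements of `U` are linear combinations of cup products of `ν`
Tate classes of degree two and of classes of degree `n - 2 ν`.  By the theorem of Tate, the Tate
classes of degree two on the powers of `A` are combinations of classes of divisors, so that `U` is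
supported in codimension `ν`.

In the Lean statement `K` is an algebraic closure of `ℚ_ℓ`, `V` is the Tate module of `A` (or of a
power of `A`) with coefficients in `K` with the Frobenius endomorphism `Fr`, which is diagonalizable
by a theorem of Weil; its eigenvalues are conjugates of the `π i`, with any multiplicities.  The
multilinear forms on `V` in `n` variables are the elements of `H^1(A, K)^{⊗ n}`; the alternating ones
are the elements of `H^n(A, K)`.

The proof.  Eigenvalues of `Fr` on `H^1(A)^{⊗ n}` are products of `n` conjugates of the `π i`.  The
Galois group permutes the half systems of embeddings (one of each pair of conjugates) transitively,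
so that one can move such a product so that all factors which do not occur in conjugate pairs become
units at a fixed `p`-adic place.  If the product is divisible by `q ^ ν`, it therefore contains `ν`
disjoint conjugate pairs.
-/

namespace Pool.Agent.Results.MP_8abef2_ag.OrdinaryMaximalDegree

open NumberField Module Pool.Agent.H204R3.GT Pool.Agent.H204R3.GP

/-- For ordinary Weil numbers `π i` in CM fields with individually flipped embeddings, or such that
the product of the `p`-adic units among their conjugates has the largest possible degree `2 ^ g`,
`2 g = ∑ [F i : ℚ]`: every Frobenius stable space `U` of multilinear forms, on which all eigenvalues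
are divisible by `q ^ ν`, consists of combinations of products of `ν` Tate classes of degree two with
other forms. -/
theorem result (p : ℕ) [Fact p.Prime] (a : ℕ) (ha : 0 < a)
    {ι : Type} [Fintype ι] (F : ι → Type) [∀ i, Field (F i)] [∀ i, NumberField (F i)]
    [∀ i, IsCMField (F i)] (π : ∀ i, F i)
    (hweil : ∀ i, π i * IsCMField.complexConj (F i) (π i) = (p : F i) ^ a)
    (hord : ∀ i, IsOrdinary p a (π i))
    (hmax : (minpoly ℚ (unitProduct p π)).natDegree = 2 ^ ((∑ i, finrank ℚ (F i)) / 2) ∨
      IndividuallyFlipped F)
    {K : Type} [Field K] [CharZero K] [IsAlgClosed K] {V : Type} [AddCommGroup V] [Module K V]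
    [FiniteDimensional K V] (Fr : V →ₗ[K] V)
    (hV : ⨆ x : Σ i, (F i →+* K), End.eigenspace Fr (x.2 (π x.1)) = ⊤)
    (n ν : ℕ) (U : Submodule K (MultilinearMap K (fun _ : Fin n => V) K))
    (hU : ∀ φ ∈ U, φ.compLinearMap (fun _ => Fr) ∈ U)
    (hdiv : ∀ φ ∈ U, φ ≠ 0 → ∀ μ : K, φ.compLinearMap (fun _ => Fr) = μ • φ →
      ∃ c : K, IsIntegral ℤ c ∧ μ = ((p ^ a : ℕ) : K) ^ ν * c) :
    U ≤ Submodule.span K {φ | IsDivisible Fr (p ^ a) ν φ} := by
  classical
  -- a basis of eigenvectors
  let S : Set V := {v | ∃ x : Σ i, (F i →+* K), Fr v = x.2 (π x.1) • v}
  have hS : ⊤ ≤ Submodule.span K S := by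
    rw [← hV]
    refine iSup_le fun x v hv => Submodule.subset_span ⟨x, ?_⟩
    exact End.mem_eigenspace_iff.1 hv
  let b := Basis.ofSpan hS
  have _ := Fintype.ofFinite ((linearIndepOn_empty K id).extend (Set.empty_subset S))
  have hx : ∀ s, ∃ x : Σ i, (F i →+* K), Fr (b s) = x.2 (π x.1) • b s := fun s =>
    Basis.ofSpan_subset hS ⟨s, rfl⟩
  choose x hx using hx
  obtain ⟨L, hL1, hL2, j, h⟩ := Pool.Agent.H204R3.CM.exists_galois F
  let jp : L →ₐ[ℚ] PadicAlgCl p := IsAlgClosed.lift
  let jK : L →ₐ[ℚ] K := IsAlgClosed.lift
  -- the Frobenius endomorphism on the forms is diagonalizable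
  let T : End K (MultilinearMap K (fun _ : Fin n => V) K) :=
    MultilinearMap.compLinearMapₗ (fun _ => Fr)
  have hT : ⨆ μ, T.genEigenspace μ 1 = ⊤ := by
    rw [eq_top_iff]
    intro φ _
    rw [expand b φ]
    refine Submodule.sum_mem _ fun I _ => Submodule.smul_mem _ _ ?_
    refine Submodule.mem_iSup_of_mem (∏ l, (x (I l)).2 (π (x (I l)).1)) ?_
    exact End.mem_eigenspace_iff.2 (mono_eigen b Fr (fun s => (x s).2 (π (x s).1)) hx I)
  rw [Submodule.eq_iSup_inf_genEigenspace (p := U) (f := T) 1 hU hT]
  refine iSup_le fun μ => ?_
  rintro φ ⟨hφU, hφ⟩
  by_cases h0 : φ = 0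
  · rw [h0]
    exact Submodule.zero_mem _
  have hφ' : φ.compLinearMap (fun _ => Fr) = μ • φ := End.mem_eigenspace_iff.1 hφ
  obtain ⟨c, hc, rfl⟩ := hdiv φ hφU h0 μ hφ'
  have htrans := hmax.elim
    (fun h1 => trans_of_unitProduct ha hweil hord j (jp : L →+* PadicAlgCl p) h h1.ge)
    (fun h1 => trans_of_flipped ha hweil hord j (jp : L →+* PadicAlgCl p) h1)
  refine mem_span_divisible' ha hweil hord j (jp : L →+* PadicAlgCl p) htrans h (jK : L →+* K) b x
    Fr hx ν φ c hc fun v => ?_
  have h1 := congrArg (fun ψ : MultilinearMap K (fun _ : Fin n => V) K => ψ v) hφ'
  exact h1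

end Pool.Agent.Results.MP_8abef2_ag.OrdinaryMaximalDegree
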